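import Pool.Agent.J4.H57.QP.Up

/-!
# From the number of prime tuples up to `N` to the numbers of prime tuples in short intervals (helper57)

If there are at least `κ S N / (log N) ^ k` integers `m ≤ N` with the property `Q` (for instance: all `m + t`, `t ∈ T`, are
primes), then for each length `y`, `N ^ θ ≤ y ≤ N`, for a positive proportion of the `x < N` there are at least
`δ S y / (log N) ^ k` such `m` in `(x, x + y]`.
-/

set_option autoImplicit false

namespace Pool.Agent.J4.H57.QP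

open Finset Filter Pool.Agent.H387R2.Uni

/-- double counting -/
lemma double_count (P : ℕ → Prop) [DecidablePred P] (N y : ℕ) (w : ℕ) (hw : w ≤ y)
    (hP : ∀ m, P m → w ≤ m ∧ m ≤ N) :
    w * ((Icc 1 N).filter P).card ≤ ∑ x ∈ range N, ((Icc (x + 1) (x + y)).filter P).card := by
  classical
  have h1 : ∑ x ∈ range N, ((Icc (x + 1) (x + y)).filter P).card =
      ∑ x ∈ range N, ∑ m ∈ (Icc 1 (N + y)).filter P, if x + 1 ≤ m ∧ m ≤ x + y then 1 else 0 := by
    refine sum_congr rfl fun x hx => ?_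
    rw [mem_range] at hx
    rw [← Finset.sum_filter, Finset.sum_const, smul_eq_mul, mul_one]
    congr 1
    ext m
    simp only [mem_filter, mem_Icc]
    constructor
    · rintro ⟨⟨a, b⟩, c⟩
      exact ⟨⟨⟨by omega, by omega⟩, c⟩, a, b⟩
    · rintro ⟨⟨-, c⟩, a, b⟩
      exact ⟨⟨a, b⟩, c⟩
  rw [h1, Finset.sum_comm]
  have h2 : (Icc 1 N).filter P ⊆ (Icc 1 (N + y)).filter P := by
    intro m hm
    rw [mem_filter, mem_Icc] at hm ⊢
    exact ⟨⟨hm.1.1, by omega⟩, hm.2⟩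
  calc w * ((Icc 1 N).filter P).card = ∑ m ∈ (Icc 1 N).filter P, w := by
        rw [Finset.sum_const, smul_eq_mul, mul_comm]
    _ ≤ ∑ m ∈ (Icc 1 N).filter P, ∑ x ∈ range N, (if x + 1 ≤ m ∧ m ≤ x + y then 1 else 0) := by
        refine sum_le_sum fun m hm => ?_
        rw [mem_filter, mem_Icc] at hm
        obtain ⟨hm1, hmP⟩ := hm
        obtain ⟨hwm, -⟩ := hP m hmP
        rw [← Finset.sum_filter, Finset.sum_const, smul_eq_mul, mul_one]
        have h3 : Ico (m - w) m ⊆ (range N).filter (fun x => x + 1 ≤ m ∧ m ≤ x + y) := by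
          intro x hx
          rw [mem_Ico] at hx
          rw [mem_filter, mem_range]
          omega
        have h4 := card_le_card h3
        rw [Nat.card_Ico] at h4
        omega
    _ ≤ ∑ m ∈ (Icc 1 (N + y)).filter P, ∑ x ∈ range N, (if x + 1 ≤ m ∧ m ≤ x + y then 1 else 0) :=
        Finset.sum_le_sum_of_subset h2

/-- the averaging argument -/
lemma many {N : ℕ} {f : ℕ → ℝ} {A B E : ℝ} (hB : 0 < B) (hf : ∀ x ∈ range N, f x ≤ B)
    (hsum : E * N ≤ ∑ x ∈ range N, f x) (hA : A ≤ E / 2) (hA0 : 0 ≤ A) :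
    E / 2 / B * N ≤ (((range N).filter (fun x => A ≤ f x)).card : ℝ) := by
  classical
  have h1 : ∑ x ∈ range N, f x ≤ ∑ x ∈ range N, (A + if A ≤ f x then B else 0) := by
    refine sum_le_sum fun x hx => ?_
    split_ifs with h
    · have := hf x hx
      linarith
    · push Not at h
      linarith
  rw [Finset.sum_add_distrib, Finset.sum_const, card_range, nsmul_eq_mul, ← Finset.sum_filter, Finset.sum_const,
    nsmul_eq_mul] at h1
  have h2 : (N : ℝ) * A ≤ N * (E / 2) := mul_le_mul_of_nonneg_left hA (Nat.cast_nonneg _)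
  rw [div_mul_eq_mul_div, div_le_iff₀ hB]
  nlinarith

open Classical in
/-- **From long to short intervals.** -/
theorem short (k : ℕ) (hk : 1 ≤ k) {κ θ : ℝ} (hκ : 0 < κ) (hθ : 0 < θ) : ∃ δ : ℝ, 0 < δ ∧ ∃ N₀ : ℕ,
    ∀ N : ℕ, N₀ ≤ N → ∀ T : Finset ℕ, T.card = k → Adm T → ∀ Q : ℕ → Prop,
      (∀ m, Q m → ∀ t ∈ T, (m + t).Prime) →
      κ * CT T * ((N : ℝ) / Real.log N ^ k) ≤ (((Icc 1 N).filter Q).card : ℝ) →
      ∀ y : ℕ, (N : ℝ) ^ θ ≤ y → y ≤ N →
        δ * N ≤ (((range N).filter (fun x : ℕ => δ * CT T * ((y : ℝ) / Real.log N ^ k) ≤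
          (((Icc (x + 1) (x + y)).filter Q).card : ℝ))).card : ℝ) := by
  obtain ⟨C, hC, M₀, hup⟩ := upper k hk
  obtain ⟨c, hc, hlow⟩ := CT_lower k
  -- the small numbers
  obtain ⟨η, hη⟩ : ∃ η : ℝ, η = min (1 / 2) (κ / (4 * (C * 2 ^ k))) := ⟨_, rfl⟩
  have hη0 : 0 < η := by rw [hη]; positivity
  have hη1 : η ≤ 1 / 2 := by rw [hη]; exact min_le_left _ _
  have hη2 : C * 2 ^ k * η ≤ κ / 4 := by
    have h1 : η ≤ κ / (4 * (C * 2 ^ k)) := by rw [hη]; exact min_le_right _ _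
    rw [le_div_iff₀ (by positivity)] at h1
    linarith
  obtain ⟨D, hD⟩ : ∃ D : ℝ, D = C / θ ^ k := ⟨_, rfl⟩
  have hD0 : 0 < D := by rw [hD]; positivity
  -- the constant
  obtain ⟨E, hE⟩ : ∃ E : ℝ, E = η / 2 * (κ / 2) := ⟨_, rfl⟩
  have hE0 : 0 < E := by rw [hE]; positivity
  obtain ⟨δ, hδ⟩ : ∃ δ : ℝ, δ = min (E / 2) (E / 2 / D) := ⟨_, rfl⟩
  have hδ0 : 0 < δ := by rw [hδ]; positivity
  refine ⟨δ, hδ0, ?_⟩
  -- large N
  have tN : Tendsto (fun N : ℕ => (N : ℝ)) atTop atTop := tendsto_natCast_atTop_atTop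
  have e1 : ∀ᶠ N : ℕ in atTop, (N : ℝ) ^ (1 / 2 : ℝ) + 1 ≤ κ / 4 * c * ((N : ℝ) / Real.log N ^ k) := by
    have h1 : (fun x : ℝ => Real.log x ^ (k : ℝ)) =o[atTop] fun x => x ^ (1 / 2 : ℝ) :=
      isLittleO_log_rpow_rpow_atTop _ (by norm_num)
    have hpos : 0 < κ / 4 * c / 2 := by positivity
    filter_upwards [tN.eventually (h1.bound hpos), tN.eventually (eventually_gt_atTop 1)] with N hN hN1
    have hN1 : (1 : ℝ) < N := hN1
    have hl : 0 < Real.log (N : ℝ) := Real.log_pos hN1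
    have hN0 : (0 : ℝ) < N := by linarith
    rw [Real.norm_of_nonneg (by positivity), Real.norm_of_nonneg (by positivity), Real.rpow_natCast] at hN
    have h2 : (1 : ℝ) ≤ (N : ℝ) ^ (1 / 2 : ℝ) := Real.one_le_rpow hN1.le (by norm_num)
    have h3 : (N : ℝ) ^ (1 / 2 : ℝ) * (N : ℝ) ^ (1 / 2 : ℝ) = N := by
      rw [← Real.rpow_add hN0]; norm_num
    rw [mul_div_assoc', le_div_iff₀ (by positivity)]
    calc ((N : ℝ) ^ (1 / 2 : ℝ) + 1) * Real.log N ^ k
        ≤ (2 * (N : ℝ) ^ (1 / 2 : ℝ)) * (κ / 4 * c / 2 * (N : ℝ) ^ (1 / 2 : ℝ)) :=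
          mul_le_mul (by linarith) hN (by positivity) (by positivity)
      _ = κ / 4 * c * ((N : ℝ) ^ (1 / 2 : ℝ) * (N : ℝ) ^ (1 / 2 : ℝ)) := by ring
      _ = κ / 4 * c * N := by rw [h3]
  have e2 : ∀ᶠ N : ℕ in atTop, (M₀ : ℝ) + 1 ≤ η * N := by
    have h1 : Tendsto (fun N : ℕ => η * (N : ℝ)) atTop atTop := tN.const_mul_atTop hη0
    exact h1.eventually_ge_atTop _
  have e3 : ∀ᶠ N : ℕ in atTop, (M₀ : ℝ) + 2 ≤ (N : ℝ) ^ θ := ((tendsto_rpow_atTop hθ).comp tN).eventually_ge_atTop _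
  -- `√N ≤ η N / 2` and `log (η N / 2) ≥ log N / 2`
  have e4 : ∀ᶠ N : ℕ in atTop, (N : ℝ) ^ (1 / 2 : ℝ) + 1 ≤ η * N / 2 := by
    have h1 : Tendsto (fun N : ℕ => (N : ℝ) ^ (1 / 2 : ℝ)) atTop atTop :=
      (tendsto_rpow_atTop (by norm_num)).comp tN
    filter_upwards [h1.eventually_ge_atTop (4 / η), tN.eventually_gt_atTop 1] with N hN hN1
    have hN0 : (0 : ℝ) < N := by linarith
    have h2 : (1 : ℝ) ≤ (N : ℝ) ^ (1 / 2 : ℝ) := Real.one_le_rpow hN1.le (by norm_num)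
    have h3 : (N : ℝ) ^ (1 / 2 : ℝ) * (N : ℝ) ^ (1 / 2 : ℝ) = N := by
      rw [← Real.rpow_add hN0]; norm_num
    have h4 : 4 ≤ η * (N : ℝ) ^ (1 / 2 : ℝ) := by
      rw [div_le_iff₀ hη0] at hN
      linarith
    calc (N : ℝ) ^ (1 / 2 : ℝ) + 1 ≤ 2 * (N : ℝ) ^ (1 / 2 : ℝ) := by linarith
      _ = 4 * (N : ℝ) ^ (1 / 2 : ℝ) / 2 := by ring
      _ ≤ η * (N : ℝ) ^ (1 / 2 : ℝ) * (N : ℝ) ^ (1 / 2 : ℝ) / 2 := by gcongr
      _ = η * N / 2 := by rw [mul_assoc, h3]
  obtain ⟨N₀, hN₀⟩ := eventually_atTop.1 (((e1.and e2).and (e3.and e4)).and (eventually_ge_atTop 3))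
  refine ⟨N₀, fun N hN T hT hTa Q hQ hlb y hy1 hy2 => ?_⟩
  obtain ⟨⟨⟨f1, f2⟩, f3, f4⟩, f5⟩ := hN₀ N hN
  have hN3 : (3 : ℝ) ≤ N := by exact_mod_cast f5
  have hN0 : (0 : ℝ) < N := by linarith
  have hl : 1 < Real.log (N : ℝ) := by
    rw [Real.lt_log_iff_exp_lt hN0]
    exact lt_of_lt_of_le (by linarith [Real.exp_one_lt_d9]) hN3
  have hl0 : 0 < Real.log (N : ℝ) := by linarith
  have hS0 : 0 < CT T := lt_of_lt_of_le hc (hlow T hT hTa)
  -- the threshold
  obtain ⟨w, hw⟩ : ∃ w : ℕ, w = ⌊η * N⌋₊ := ⟨_, rfl⟩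
  have hwle : (w : ℝ) ≤ η * N := by rw [hw]; exact Nat.floor_le (by positivity)
  have hwlt : η * N < w + 1 := by rw [hw]; exact Nat.lt_floor_add_one _
  have hwM : M₀ ≤ w := by
    have : (M₀ : ℝ) < w + 1 := by linarith
    have h2 : M₀ < w + 1 := by exact_mod_cast this
    omega
  have hw2 : (N : ℝ) ^ (1 / 2 : ℝ) ≤ w := by
    have : η * N / 2 ≤ η * N := by
      have : 0 ≤ η * (N : ℝ) := by positivity
      linarith
    linarith
  have hwhalf : η * N / 2 ≤ w := by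
    have h2 : (1 : ℝ) ≤ η * N / 2 := by
      have : (0 : ℝ) ≤ (N : ℝ) ^ (1 / 2 : ℝ) := by positivity
      linarith
    linarith
  have hlw : Real.log N / 2 ≤ Real.log w := by
    have h1 := Real.log_le_log (by positivity : (0 : ℝ) < (N : ℝ) ^ (1 / 2 : ℝ)) hw2
    rw [Real.log_rpow hN0] at h1
    linarith
  have hy0 : (0 : ℝ) < y := lt_of_lt_of_le (by positivity) hy1
  have hyM : M₀ ≤ y := by
    have : (M₀ : ℝ) ≤ y := by linarith
    exact_mod_cast this
  have hly : θ * Real.log N ≤ Real.log y := by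
    have h1 := Real.log_le_log (by positivity : (0 : ℝ) < (N : ℝ) ^ θ) hy1
    rwa [Real.log_rpow hN0] at h1
  have hrough : ∀ l m : ℕ, l.Prime → l ^ 8 ≤ N → (N : ℝ) ^ (1 / 2 : ℝ) < m → l < m := by
    intro l m hl1 hl8 hm
    have h1 : ((l : ℝ)) ^ 8 ≤ N := by exact_mod_cast hl8
    have h2 : (1 : ℝ) ≤ l := by exact_mod_cast hl1.one_lt.le
    have h3 : ((l : ℝ)) ^ 2 ≤ N := (pow_le_pow_right₀ h2 (by norm_num)).trans h1
    have h4 : (l : ℝ) ≤ (N : ℝ) ^ (1 / 2 : ℝ) := by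
      rw [← Real.sqrt_eq_rpow]
      exact Real.le_sqrt_of_sq_le h3
    exact_mod_cast lt_of_le_of_lt h4 hm
  -- few small ones
  have hsmall : (((Icc 1 w).filter Q).card : ℝ) ≤ (N : ℝ) ^ (1 / 2 : ℝ) + 1 + κ / 4 * CT T * ((N : ℝ) / Real.log N ^ k) := by
    have h1 := hup w 0 T (fun m => Q m ∧ (N : ℝ) ^ (1 / 2 : ℝ) < m) hwM hT hTa (by
      intro m _ _ hm t ht l hl1 hl8 hdvd
      have h2 : l = m + t := (Nat.prime_dvd_prime_iff_eq hl1 (hQ m hm.1 t ht)).1 hdvd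
      have h3 : w ≤ N := by
        have : (w : ℝ) ≤ N := hwle.trans (by nlinarith)
        exact_mod_cast this
      have h4 := hrough l m hl1 (hl8.trans h3) hm.2
      omega)
    rw [Nat.zero_add, Nat.zero_add] at h1
    have h2 : (Icc 1 w).filter Q ⊆ (Icc 1 w).filter (fun m => Q m ∧ (N : ℝ) ^ (1 / 2 : ℝ) < m) ∪
        Icc 1 ⌊(N : ℝ) ^ (1 / 2 : ℝ)⌋₊ := by
      intro m hm
      rw [mem_filter, mem_Icc] at hm
      rw [mem_union, mem_filter, mem_Icc, mem_Icc]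
      by_cases h : (N : ℝ) ^ (1 / 2 : ℝ) < m
      · exact Or.inl ⟨hm.1, hm.2, h⟩
      · exact Or.inr ⟨hm.1.1, Nat.le_floor (not_lt.1 h)⟩
    have h3 := (card_le_card h2).trans (card_union_le _ _)
    rw [Nat.card_Icc, Nat.add_sub_cancel] at h3
    have h4 : ((⌊(N : ℝ) ^ (1 / 2 : ℝ)⌋₊ : ℕ) : ℝ) ≤ (N : ℝ) ^ (1 / 2 : ℝ) := Nat.floor_le (by positivity)
    have h5 : C * CT T * ((w : ℝ) / Real.log w ^ k) ≤ κ / 4 * CT T * ((N : ℝ) / Real.log N ^ k) := by
      have h6 : (Real.log N / 2) ^ k ≤ Real.log w ^ k := pow_le_pow_left₀ (by linarith) hlw k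
      have h7 : (w : ℝ) / Real.log w ^ k ≤ η * N / (Real.log N / 2) ^ k :=
        div_le_div₀ (by positivity) hwle (by positivity) h6
      calc C * CT T * ((w : ℝ) / Real.log w ^ k) ≤ C * CT T * (η * N / (Real.log N / 2) ^ k) :=
            mul_le_mul_of_nonneg_left h7 (by positivity)
        _ = (C * 2 ^ k * η) * CT T * (N / Real.log N ^ k) := by
            rw [div_pow]; field_simp
        _ ≤ κ / 4 * CT T * (N / Real.log N ^ k) := by
            apply mul_le_mul_of_nonneg_right _ (by positivity)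
            exact mul_le_mul_of_nonneg_right hη2 hS0.le
    have h15 : (((Icc 1 w).filter (fun m => Q m ∧ (N : ℝ) ^ (1 / 2 : ℝ) < m)).card : ℝ) ≤
        κ / 4 * CT T * ((N : ℝ) / Real.log N ^ k) := by
      refine le_trans (le_of_eq ?_) (h1.trans h5)
      congr!
    calc (((Icc 1 w).filter Q).card : ℝ)
        ≤ ((Icc 1 w).filter (fun m => Q m ∧ (N : ℝ) ^ (1 / 2 : ℝ) < m)).card + (⌊(N : ℝ) ^ (1 / 2 : ℝ)⌋₊ : ℕ) := by
          exact_mod_cast h3
      _ ≤ κ / 4 * CT T * ((N : ℝ) / Real.log N ^ k) + (N : ℝ) ^ (1 / 2 : ℝ) := add_le_add h15 h4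
      _ ≤ _ := by linarith
  -- many large ones
  obtain ⟨P, hP⟩ : ∃ P : ℕ → Prop, P = fun m => (Q m ∧ w < m) ∧ m ≤ N := ⟨_, rfl⟩
  have hlarge : κ / 2 * CT T * ((N : ℝ) / Real.log N ^ k) ≤ (((Icc 1 N).filter P).card : ℝ) := by
    have h2 : (Icc 1 N).filter Q ⊆ (Icc 1 w).filter Q ∪ (Icc 1 N).filter P := by
      intro m hm
      rw [mem_filter, mem_Icc] at hm
      rw [mem_union, mem_filter, mem_filter, mem_Icc, mem_Icc, hP]
      by_cases h : m ≤ w
      · exact Or.inl ⟨⟨hm.1.1, h⟩, hm.2⟩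
      · exact Or.inr ⟨hm.1, ⟨hm.2, by omega⟩, hm.1.2⟩
    have h3 := (card_le_card h2).trans (card_union_le _ _)
    have h4 : (((Icc 1 N).filter Q).card : ℝ) ≤ ((Icc 1 w).filter Q).card + ((Icc 1 N).filter P).card := by
      exact_mod_cast h3
    have h5 : κ / 4 * c * ((N : ℝ) / Real.log N ^ k) ≤ κ / 4 * CT T * ((N : ℝ) / Real.log N ^ k) := by
      apply mul_le_mul_of_nonneg_right _ (by positivity)
      exact mul_le_mul_of_nonneg_left (hlow T hT hTa) (by positivity)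
    have h6 : κ * CT T * ((N : ℝ) / Real.log N ^ k) = 4 * (κ / 4 * CT T * ((N : ℝ) / Real.log N ^ k)) := by ring
    have h7 : κ / 2 * CT T * ((N : ℝ) / Real.log N ^ k) = 2 * (κ / 4 * CT T * ((N : ℝ) / Real.log N ^ k)) := by ring
    linarith
  -- the sum over the intervals
  obtain ⟨w', hw'⟩ : ∃ w' : ℕ, w' = min w y := ⟨_, rfl⟩
  have hw'y : η / 2 * y ≤ (w' : ℝ) := by
    rw [hw', Nat.cast_min]
    have hyN : (y : ℝ) ≤ N := by exact_mod_cast hy2
    refine le_min ?_ ?_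
    · calc η / 2 * y ≤ η / 2 * N := mul_le_mul_of_nonneg_left hyN (by positivity)
        _ = η * N / 2 := by ring
        _ ≤ w := hwhalf
    · nlinarith
  have hdc := double_count P N y w' (by rw [hw']; exact min_le_right _ _) (by
    intro m hm
    rw [hP] at hm
    have : w' ≤ w := by rw [hw']; exact min_le_left _ _
    exact ⟨by omega, hm.2⟩)
  have hsum : E * CT T * ((y : ℝ) / Real.log N ^ k) * N ≤
      ∑ x ∈ range N, (((Icc (x + 1) (x + y)).filter P).card : ℝ) := by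
    have h1 : (w' : ℝ) * ((Icc 1 N).filter P).card ≤ ∑ x ∈ range N, (((Icc (x + 1) (x + y)).filter P).card : ℝ) := by
      exact_mod_cast hdc
    refine le_trans ?_ h1
    calc E * CT T * ((y : ℝ) / Real.log N ^ k) * N
        = (η / 2 * y) * (κ / 2 * CT T * ((N : ℝ) / Real.log N ^ k)) := by rw [hE]; ring
      _ ≤ (w' : ℝ) * ((Icc 1 N).filter P).card := mul_le_mul hw'y hlarge (by positivity) (Nat.cast_nonneg _)
  -- the upper bound in each interval
  have hbound : ∀ x ∈ range N, (((Icc (x + 1) (x + y)).filter P).card : ℝ) ≤ D * CT T * ((y : ℝ) / Real.log N ^ k) := by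
    intro x _
    have h1 := hup y x T P hyM hT hTa (by
      intro m _ _ hm t ht l hl1 hl8 hdvd
      rw [hP] at hm
      have h2 : l = m + t := (Nat.prime_dvd_prime_iff_eq hl1 (hQ m hm.1.1 t ht)).1 hdvd
      have h5 : (N : ℝ) ^ (1 / 2 : ℝ) < m := lt_of_le_of_lt hw2 (by exact_mod_cast hm.1.2)
      have h4 := hrough l m hl1 (hl8.trans hy2) h5
      omega)
    refine h1.trans ?_
    have h6 : (θ * Real.log N) ^ k ≤ Real.log y ^ k := pow_le_pow_left₀ (by positivity) hly k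
    have h7 : (y : ℝ) / Real.log y ^ k ≤ y / (θ * Real.log N) ^ k :=
      div_le_div_of_nonneg_left hy0.le (by positivity) h6
    calc C * CT T * ((y : ℝ) / Real.log y ^ k) ≤ C * CT T * (y / (θ * Real.log N) ^ k) :=
          mul_le_mul_of_nonneg_left h7 (by positivity)
      _ = D * CT T * ((y : ℝ) / Real.log N ^ k) := by
          rw [hD, mul_pow]; field_simp
  have hpos : 0 < CT T * ((y : ℝ) / Real.log N ^ k) := by positivity
  have hmany := many (N := N) (f := fun x => (((Icc (x + 1) (x + y)).filter P).card : ℝ))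
    (A := δ * CT T * ((y : ℝ) / Real.log N ^ k)) (B := D * CT T * ((y : ℝ) / Real.log N ^ k))
    (E := E * CT T * ((y : ℝ) / Real.log N ^ k)) (by positivity) hbound hsum (by
      have h1 : δ ≤ E / 2 := by rw [hδ]; exact min_le_left _ _
      calc δ * CT T * ((y : ℝ) / Real.log N ^ k) = δ * (CT T * ((y : ℝ) / Real.log N ^ k)) := by ring
        _ ≤ E / 2 * (CT T * ((y : ℝ) / Real.log N ^ k)) := mul_le_mul_of_nonneg_right h1 hpos.le
        _ = _ := by ring) (by positivity)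
  have hratio : E * CT T * ((y : ℝ) / Real.log N ^ k) / 2 / (D * CT T * ((y : ℝ) / Real.log N ^ k)) = E / 2 / D := by
    have h1 : E * CT T * ((y : ℝ) / Real.log N ^ k) / 2 = (E / 2) * (CT T * ((y : ℝ) / Real.log N ^ k)) := by ring
    have h2 : D * CT T * ((y : ℝ) / Real.log N ^ k) = D * (CT T * ((y : ℝ) / Real.log N ^ k)) := by ring
    rw [h1, h2, mul_div_mul_right _ _ hpos.ne']
  rw [hratio] at hmany
  have hδD : δ ≤ E / 2 / D := by rw [hδ]; exact min_le_right _ _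
  refine (mul_le_mul_of_nonneg_right hδD (Nat.cast_nonneg _)).trans (hmany.trans ?_)
  have hfin : (range N).filter (fun x : ℕ => δ * CT T * ((y : ℝ) / Real.log N ^ k) ≤
      (((Icc (x + 1) (x + y)).filter P).card : ℝ)) ⊆
      (range N).filter (fun x : ℕ => δ * CT T * ((y : ℝ) / Real.log N ^ k) ≤
        (((Icc (x + 1) (x + y)).filter Q).card : ℝ)) := by
    intro x hx
    rw [mem_filter] at hx ⊢
    refine ⟨hx.1, hx.2.trans ?_⟩
    have h1 : (Icc (x + 1) (x + y)).filter P ⊆ (Icc (x + 1) (x + y)).filter Q := by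
      intro m hm
      rw [mem_filter] at hm ⊢
      rw [hP] at hm
      exact ⟨hm.1, hm.2.1.1⟩
    exact Nat.cast_le.2 (card_le_card h1)
  exact Nat.cast_le.2 (card_le_card hfin)

end Pool.Agent.J4.H57.QP
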