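import Pool.Agent.J4.H57.QP.Up

/-!
# From the prime tuples up to `N ^ 5` to the prime tuples between consecutive fifth powers (helper57)
-/

set_option autoImplicit false

namespace Pool.Agent.J4.H57.QP

open Finset Pool.Agent.H387R2.Uni

open Classical in
/-- the number of the `m` with the property `Q` such that all `m + t`, `t ∈ T`, are strictly
between `n ^ 5` and `(n + 1) ^ 5` -/
noncomputable def cnt (Q : ℕ → Prop) (T : Finset ℕ) (n : ℕ) : ℕ :=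
  ((range ((n + 1) ^ 5)).filter
    (fun m => Q m ∧ ∀ t ∈ T, n ^ 5 < m + t ∧ m + t < (n + 1) ^ 5)).card

lemma fifth_root (m : ℕ) : ∃ n : ℕ, n ^ 5 ≤ m ∧ m < (n + 1) ^ 5 := by
  classical
  have hex : ∃ n : ℕ, m < (n + 1) ^ 5 :=
    ⟨m, lt_of_lt_of_le (Nat.lt_succ_self m) (Nat.le_self_pow (by norm_num) _)⟩
  refine ⟨Nat.find hex, ?_, Nat.find_spec hex⟩
  rcases Nat.eq_zero_or_pos (Nat.find hex) with h | h
  · rw [h]; simp
  · have h1 := Nat.find_min hex (m := Nat.find hex - 1) (by omega)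
    rw [show Nat.find hex - 1 + 1 = Nat.find hex by omega] at h1
    omega

lemma diff_le {n : ℕ} (hn : 1 ≤ n) : (n + 1) ^ 5 - n ^ 5 ≤ 31 * n ^ 4 := by
  have h : (n + 1) ^ 5 ≤ 31 * n ^ 4 + n ^ 5 := by
    have h1 : 1 ≤ n ^ 4 := Nat.one_le_pow _ _ hn
    have h2 : n ≤ n ^ 4 := Nat.le_self_pow (by norm_num) _
    have h3 : n ^ 2 ≤ n ^ 4 := Nat.pow_le_pow_right hn (by norm_num)
    have h4 : n ^ 3 ≤ n ^ 4 := Nat.pow_le_pow_right hn (by norm_num)
    have h5 : (n + 1) ^ 5 = n ^ 5 + 5 * n ^ 4 + 10 * n ^ 3 + 10 * n ^ 2 + 5 * n + 1 := by ring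
    omega
  omega

lemma le_diff (n : ℕ) : n + 1 ≤ (n + 1) ^ 5 - n ^ 5 := by
  have h5 : (n + 1) ^ 5 = n ^ 5 + 5 * n ^ 4 + 10 * n ^ 3 + 10 * n ^ 2 + 5 * n + 1 := by ring
  omega

lemma diff_lt {n : ℕ} (hn : 32 ≤ n) : (n + 1) ^ 5 - n ^ 5 ≤ n ^ 5 - 1 := by
  have h1 := diff_le (n := n) (by omega)
  have h2 : 31 * n ^ 4 + 1 ≤ n ^ 5 := by
    have h3 : n ^ 5 = n * n ^ 4 := by ring
    have h4 : 1 ≤ n ^ 4 := Nat.one_le_pow _ _ (by omega)
    rw [h3]
    nlinarith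
  omega

open Classical in
/-- the upper bound between consecutive fifth powers -/
theorem upper_fifth (k : ℕ) (hk : 1 ≤ k) : ∃ C : ℝ, 0 < C ∧ ∃ n₀ : ℕ, ∀ (n : ℕ) (T : Finset ℕ),
    n₀ ≤ n → T.card = k → Adm T → ∀ Q : ℕ → Prop,
    (32 ≤ n → ∀ m, n ^ 5 ≤ m → m < (n + 1) ^ 5 → Q m → ∀ t ∈ T, ∀ l : ℕ, l.Prime →
      l ^ 8 ≤ (n + 1) ^ 5 - n ^ 5 → ¬ l ∣ m + t) →
    (((Ico (n ^ 5) ((n + 1) ^ 5)).filter Q).card : ℝ) ≤
      C * CT T * ((n : ℝ) ^ 4 / Real.log n ^ k) := by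
  obtain ⟨C, hC, M₀, h⟩ := upper k hk
  refine ⟨C * 31, by positivity, max M₀ 32, fun n T hn hTk hT Q hQ => ?_⟩
  have hn32 : 32 ≤ n := (le_max_right _ _).trans hn
  have hnM : M₀ ≤ n := (le_max_left _ _).trans hn
  obtain ⟨M, hM⟩ : ∃ M, M = (n + 1) ^ 5 - n ^ 5 := ⟨_, rfl⟩
  have h1 := diff_le (n := n) (by omega)
  have h2 := le_diff n
  rw [← hM] at h1 h2
  have hpow : n ^ 5 ≤ (n + 1) ^ 5 := Nat.pow_le_pow_left (by omega) 5
  have hn5 : 1 ≤ n ^ 5 := Nat.one_le_pow _ _ (by omega)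
  have key := h M (n ^ 5 - 1) T Q (by omega) hTk hT (by
    intro m hm1 hm2 hQm t ht l hl hl8
    exact hQ hn32 m (by omega) (by omega) hQm t ht l hl (by rw [← hM]; exact hl8))
  have hsub : (Ico (n ^ 5) ((n + 1) ^ 5)).filter Q ⊆
      (Icc (n ^ 5 - 1 + 1) (n ^ 5 - 1 + M)).filter Q := by
    intro m hm
    rw [mem_filter, mem_Ico] at hm
    rw [mem_filter, mem_Icc]
    exact ⟨⟨by omega, by omega⟩, hm.2⟩
  have hcard : (((Ico (n ^ 5) ((n + 1) ^ 5)).filter Q).card : ℝ) ≤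
      (((Icc (n ^ 5 - 1 + 1) (n ^ 5 - 1 + M)).filter Q).card : ℝ) := by
    exact_mod_cast Finset.card_le_card hsub
  refine hcard.trans (key.trans ?_)
  have hCT : 0 ≤ CT T := CT_nonneg T
  have hlog : 0 < Real.log n := Real.log_pos (by exact_mod_cast (by omega : 1 < n))
  have hlogM : Real.log n ≤ Real.log M :=
    Real.log_le_log (by exact_mod_cast (by omega : 0 < n)) (by exact_mod_cast (by omega : n ≤ M))
  have hM1 : (M : ℝ) ≤ 31 * (n : ℝ) ^ 4 := by exact_mod_cast h1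
  have h4 : (M : ℝ) / Real.log M ^ k ≤ 31 * (n : ℝ) ^ 4 / Real.log n ^ k :=
    div_le_div₀ (by positivity) hM1 (by positivity) (pow_le_pow_left₀ hlog.le hlogM k)
  calc C * CT T * ((M : ℝ) / Real.log M ^ k) ≤ C * CT T * (31 * (n : ℝ) ^ 4 / Real.log n ^ k) :=
        mul_le_mul_of_nonneg_left h4 (by positivity)
    _ = C * 31 * CT T * ((n : ℝ) ^ 4 / Real.log n ^ k) := by ring

open Classical in
/-- **From the tuples up to `N ^ 5` to the tuples between consecutive fifth powers.** -/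
theorem transfer (k : ℕ) (hk : 1 ≤ k) (δ : ℝ) (hδ : 0 < δ) : ∃ δ' : ℝ, 0 < δ' ∧
    ∃ N₀ : ℕ, ∀ N : ℕ, N₀ ≤ N → ∀ T : Finset ℕ, T.card = k → Adm T → (∀ t ∈ T, t ≤ N ^ 3) →
    ∀ Q : ℕ → Prop, (∀ n, 32 ≤ n → n ≤ N → ∀ m, n ^ 5 ≤ m → m < (n + 1) ^ 5 → Q m →
      ∀ t ∈ T, ∀ l : ℕ, l.Prime → l ^ 8 ≤ (n + 1) ^ 5 - n ^ 5 → ¬ l ∣ m + t) →
    δ * CT T * (((N ^ 5 : ℕ) : ℝ) / Real.log ((N ^ 5 : ℕ) : ℝ) ^ k) ≤
      (((Icc 1 (N ^ 5)).filter Q).card : ℝ) →
    δ' * N ≤ (((Icc 1 N).filter (fun n : ℕ => δ' * CT T * ((n : ℝ) ^ 4 / Real.log n ^ k) ≤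
      (cnt Q T n : ℝ))).card : ℝ) := by
  obtain ⟨C, hC, n₀, hupp⟩ := upper_fifth k hk
  obtain ⟨c, hc, hlow⟩ := CT_lower k
  obtain ⟨δ', hδ'⟩ : ∃ δ' : ℝ, δ' = min (δ / (4 * 5 ^ k * 2 ^ k)) (δ / (4 * 5 ^ k * (C * 2 ^ k))) :=
    ⟨_, rfl⟩
  have hδ'0 : 0 < δ' := by rw [hδ']; positivity
  refine ⟨δ', hδ'0, ?_⟩
  have tN : Filter.Tendsto (fun N : ℕ => (N : ℝ)) Filter.atTop Filter.atTop :=
    tendsto_natCast_atTop_atTop
  have ev1 : ∀ᶠ N : ℕ in Filter.atTop,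
      Real.log (N : ℝ) ^ k ≤ δ * c / (512 * 5 ^ k) * N := by
    have h1 := (isLittleO_log_rpow_rpow_atTop (k : ℝ) (show (0 : ℝ) < 1 by norm_num)).bound
      (show (0 : ℝ) < δ * c / (512 * 5 ^ k) by positivity)
    filter_upwards [tN.eventually h1, Filter.eventually_ge_atTop 1] with N hN hN1
    have hN1' : (1 : ℝ) ≤ N := by exact_mod_cast hN1
    rw [Real.rpow_natCast, Real.rpow_one, Real.norm_of_nonneg (pow_nonneg (Real.log_nonneg hN1') _),
      Real.norm_of_nonneg (by linarith)] at hN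
    exact hN
  obtain ⟨N₁, hN₁⟩ := Filter.eventually_atTop.1 ev1
  refine ⟨max N₁ (max (n₀ ^ 2) 3), fun N hN T hTk hT htL Q hQ hlb => ?_⟩
  have g1 := hN₁ N ((le_max_left _ _).trans hN)
  have hN3 : 3 ≤ N := (le_max_right _ _).trans ((le_max_right _ _).trans hN)
  have hNn : n₀ ^ 2 ≤ N := (le_max_left _ _).trans ((le_max_right _ _).trans hN)
  have hNR : (3 : ℝ) ≤ N := by exact_mod_cast hN3
  have hN0 : (0 : ℝ) < N := by linarith
  obtain ⟨Lg, hLg⟩ : ∃ Lg : ℝ, Lg = Real.log N := ⟨_, rfl⟩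
  have hLg0 : 0 < Lg := by rw [hLg]; exact Real.log_pos (by linarith)
  rw [← hLg] at g1
  have hCT : c ≤ CT T := hlow T hTk hT
  have hCT0 : 0 < CT T := lt_of_lt_of_le hc hCT
  obtain ⟨L, hL⟩ : ∃ L : ℕ, L = N ^ 3 := ⟨_, rfl⟩
  rw [← hL] at htL
  obtain ⟨n1, hn1⟩ : ∃ n1, n1 = Nat.sqrt N + 1 := ⟨_, rfl⟩
  have hsq : N < n1 * n1 := by rw [hn1]; exact Nat.lt_succ_sqrt N
  have hn1le : n1 ^ 5 ≤ 64 * N ^ 3 := by
    have hs1 : 1 ≤ Nat.sqrt N := by
      rw [Nat.le_sqrt]; omega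
    have hs2 : Nat.sqrt N * Nat.sqrt N ≤ N := Nat.sqrt_le N
    have hs3 : n1 * n1 ≤ 4 * N := by
      rw [hn1]
      nlinarith
    calc n1 ^ 5 ≤ n1 ^ 6 := Nat.pow_le_pow_right (by omega) (by norm_num)
      _ = (n1 * n1) ^ 3 := by ring
      _ ≤ (4 * N) ^ 3 := Nat.pow_le_pow_left hs3 3
      _ = 64 * N ^ 3 := by ring
  -- the upper bound for all `n ≥ n1`
  obtain ⟨U, hU⟩ : ∃ U : ℝ, U = 2 ^ k * (N : ℝ) ^ 4 / Lg ^ k := ⟨_, rfl⟩
  have hU0 : 0 < U := by rw [hU]; positivity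
  have hnU : ∀ n ∈ Icc n1 N, (n : ℝ) ^ 4 / Real.log n ^ k ≤ U := by
    intro n hn
    rw [mem_Icc] at hn
    have hnN : (n : ℝ) ≤ N := by exact_mod_cast hn.2
    have hn2 : 2 ≤ n := by
      have hs1 : 1 ≤ Nat.sqrt N := by
        rw [Nat.le_sqrt]; omega
      omega
    have hlogn : 0 < Real.log n := Real.log_pos (by exact_mod_cast (by omega : 1 < n))
    have h1 : N ≤ n ^ 2 := by
      have : n1 * n1 ≤ n * n := Nat.mul_le_mul hn.1 hn.1
      nlinarith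
    have h2 : Lg ≤ 2 * Real.log n := by
      have h3 : Real.log N ≤ Real.log ((n : ℝ) ^ 2) :=
        Real.log_le_log hN0 (by exact_mod_cast h1)
      rw [Real.log_pow] at h3
      rw [hLg]
      exact_mod_cast h3
    have h3 : Lg ^ k ≤ 2 ^ k * Real.log n ^ k := by
      rw [← mul_pow]
      exact pow_le_pow_left₀ hLg0.le h2 k
    rw [hU, div_le_div_iff₀ (by positivity) (by positivity)]
    calc (n : ℝ) ^ 4 * Lg ^ k ≤ (N : ℝ) ^ 4 * (2 ^ k * Real.log n ^ k) :=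
          mul_le_mul (pow_le_pow_left₀ (Nat.cast_nonneg _) hnN 4) h3 (by positivity) (by positivity)
      _ = 2 ^ k * (N : ℝ) ^ 4 * Real.log n ^ k := by ring
  obtain ⟨S, hS⟩ : ∃ S : ℕ → Finset ℕ, S = fun n => (Ico (n ^ 5) ((n + 1) ^ 5)).filter Q := ⟨_, rfl⟩
  have hSup : ∀ n ∈ Icc n1 N, ((S n).card : ℝ) ≤ C * CT T * U := by
    intro n hn
    have hn' := hn
    rw [mem_Icc] at hn'
    have hnn : n₀ ≤ n := by
      by_contra hlt
      have h1 : n1 * n1 ≤ n * n := Nat.mul_le_mul hn'.1 hn'.1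
      have h2 : n * n ≤ n₀ ^ 2 := by
        rw [pow_two]
        exact Nat.mul_le_mul (by omega) (by omega)
      omega
    rw [hS]
    refine (hupp n T hnn hTk hT Q (fun h32 => hQ n h32 hn'.2)).trans ?_
    exact mul_le_mul_of_nonneg_left (hnU n hn) (by positivity)
  have hScnt : ∀ n : ℕ, (S n).card ≤ cnt Q T n + (L + 1) := by
    intro n
    have hsub : S n ⊆ ((range ((n + 1) ^ 5)).filter
        (fun m => Q m ∧ ∀ t ∈ T, n ^ 5 < m + t ∧ m + t < (n + 1) ^ 5)) ∪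
        (insert (n ^ 5) (Ico ((n + 1) ^ 5 - L) ((n + 1) ^ 5))) := by
      intro m hm
      rw [hS, mem_filter, mem_Ico] at hm
      rw [mem_union, mem_insert, mem_Ico, mem_filter, mem_range]
      by_cases h1 : m = n ^ 5
      · exact Or.inr (Or.inl h1)
      · by_cases h2 : (n + 1) ^ 5 - L ≤ m
        · exact Or.inr (Or.inr ⟨h2, hm.1.2⟩)
        · left
          refine ⟨hm.1.2, hm.2, fun t ht => ?_⟩
          have := htL t ht
          omega
    refine (Finset.card_le_card hsub).trans ((Finset.card_union_le _ _).trans ?_)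
    refine Nat.add_le_add (le_of_eq rfl) ((Finset.card_insert_le _ _).trans ?_)
    rw [Nat.card_Ico]
    omega
  -- the covering
  have hcover : (Icc 1 (N ^ 5)).filter Q ⊆ range (n1 ^ 5) ∪ (Icc n1 N).biUnion S := by
    intro m hm
    rw [mem_filter, mem_Icc] at hm
    rw [mem_union, mem_range, mem_biUnion]
    obtain ⟨n, h1, h2⟩ := fifth_root m
    by_cases h3 : m < n1 ^ 5
    · exact Or.inl h3
    · right
      refine ⟨n, ?_, ?_⟩
      · rw [mem_Icc]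
        constructor
        · by_contra h4
          have : (n + 1) ^ 5 ≤ n1 ^ 5 := Nat.pow_le_pow_left (by omega) 5
          omega
        · by_contra h4
          have : (N + 1) ^ 5 ≤ n ^ 5 := Nat.pow_le_pow_left (by omega) 5
          have h5 : N ^ 5 < (N + 1) ^ 5 := Nat.pow_lt_pow_left (Nat.lt_succ_self N) (by norm_num)
          omega
      · rw [hS, mem_filter, mem_Ico]
        exact ⟨⟨h1, h2⟩, hm.2⟩
  have htot : (((Icc 1 (N ^ 5)).filter Q).card : ℝ) ≤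
      (n1 : ℝ) ^ 5 + ∑ n ∈ Icc n1 N, ((S n).card : ℝ) := by
    have h1 := (Finset.card_le_card hcover).trans (Finset.card_union_le _ _)
    have h2 : ((Icc n1 N).biUnion S).card ≤ ∑ n ∈ Icc n1 N, (S n).card := Finset.card_biUnion_le
    rw [card_range] at h1
    have h3 : ((Icc 1 (N ^ 5)).filter Q).card ≤ n1 ^ 5 + ∑ n ∈ Icc n1 N, (S n).card := by omega
    exact_mod_cast h3
  -- the good `n`
  obtain ⟨P, hP⟩ : ∃ P : ℕ → Prop, P = fun n : ℕ => δ' * CT T * ((n : ℝ) ^ 4 / Real.log n ^ k) ≤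
    (cnt Q T n : ℝ) := ⟨_, rfl⟩
  obtain ⟨G, hG0⟩ : ∃ G : ℝ, G = (((Icc 1 N).filter (fun n : ℕ =>
    δ' * CT T * ((n : ℝ) ^ 4 / Real.log n ^ k) ≤ (cnt Q T n : ℝ))).card : ℝ) := ⟨_, rfl⟩
  rw [← hG0]
  have hG : G = (((Icc 1 N).filter P).card : ℝ) := by
    rw [hG0]
    congr 2
    ext n
    simp only [mem_filter, hP]
  have hsum : ∑ n ∈ Icc n1 N, ((S n).card : ℝ) ≤
      G * (C * CT T * U) + N * (δ' * CT T * U + (L + 1)) := by
    rw [← Finset.sum_filter_add_sum_filter_not (Icc n1 N) P]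
    refine add_le_add ?_ ?_
    · calc ∑ n ∈ (Icc n1 N).filter P, ((S n).card : ℝ)
          ≤ ∑ n ∈ (Icc n1 N).filter P, C * CT T * U :=
            Finset.sum_le_sum fun n hn => hSup n (mem_filter.1 hn).1
        _ = (((Icc n1 N).filter P).card : ℝ) * (C * CT T * U) := by
            rw [Finset.sum_const, nsmul_eq_mul]
        _ ≤ G * (C * CT T * U) := by
            refine mul_le_mul_of_nonneg_right ?_ (by positivity)
            rw [hG]
            have : (Icc n1 N).filter P ⊆ (Icc 1 N).filter P := by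
              refine Finset.filter_subset_filter _ (Finset.Icc_subset_Icc_left ?_)
              omega
            exact_mod_cast Finset.card_le_card this
    · calc ∑ n ∈ (Icc n1 N).filter (fun n => ¬ P n), ((S n).card : ℝ)
          ≤ ∑ n ∈ (Icc n1 N).filter (fun n => ¬ P n), (δ' * CT T * U + (L + 1)) := by
            refine Finset.sum_le_sum fun n hn => ?_
            rw [mem_filter] at hn
            have h1 : ((S n).card : ℝ) ≤ cnt Q T n + (L + 1) := by exact_mod_cast hScnt n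
            have h2 : ¬ δ' * CT T * ((n : ℝ) ^ 4 / Real.log n ^ k) ≤ (cnt Q T n : ℝ) := by
              have := hn.2
              rw [hP] at this
              exact this
            have h3 : δ' * CT T * ((n : ℝ) ^ 4 / Real.log n ^ k) ≤ δ' * CT T * U :=
              mul_le_mul_of_nonneg_left (hnU n hn.1) (by positivity)
            linarith [not_le.1 h2]
        _ = (((Icc n1 N).filter (fun n => ¬ P n)).card : ℝ) * (δ' * CT T * U + (L + 1)) := by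
            rw [Finset.sum_const, nsmul_eq_mul]
        _ ≤ N * (δ' * CT T * U + (L + 1)) := by
            refine mul_le_mul_of_nonneg_right ?_ (by positivity)
            have h1 : ((Icc n1 N).filter (fun n => ¬ P n)).card ≤ N := by
              refine (Finset.card_filter_le _ _).trans ?_
              rw [Nat.card_Icc]
              omega
            exact_mod_cast h1
  -- comparison
  obtain ⟨V, hV⟩ : ∃ V : ℝ, V = CT T * (N : ℝ) ^ 5 / Lg ^ k := ⟨_, rfl⟩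
  have hV0 : 0 < V := by rw [hV]; positivity
  have hNU : (N : ℝ) * (CT T * U) = 2 ^ k * V := by
    rw [hU, hV]; ring
  have hlb' : δ / 5 ^ k * V ≤ (((Icc 1 (N ^ 5)).filter Q).card : ℝ) := by
    refine le_trans (le_of_eq ?_) hlb
    rw [hV, hLg]
    push_cast
    rw [Real.log_pow]
    push_cast
    rw [mul_pow]
    field_simp
  -- the small terms
  have hsmall : (n1 : ℝ) ^ 5 + N * (L + 1) ≤ δ / (4 * 5 ^ k) * V := by
    have h0 : (1 : ℝ) ≤ (N : ℝ) ^ 3 := one_le_pow₀ (by linarith)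
    have h1 : (n1 : ℝ) ^ 5 ≤ 64 * (N : ℝ) ^ 4 := by
      have h2 : (n1 : ℝ) ^ 5 ≤ 64 * (N : ℝ) ^ 3 := by exact_mod_cast hn1le
      have h3 : (N : ℝ) ^ 3 ≤ (N : ℝ) ^ 4 := pow_le_pow_right₀ (by linarith) (by norm_num)
      linarith
    have h2 : (N : ℝ) * (L + 1) ≤ 64 * (N : ℝ) ^ 4 := by
      rw [hL]
      push_cast
      have h3 : (N : ℝ) * ((N : ℝ) ^ 3 + 1) ≤ (N : ℝ) * (2 * (N : ℝ) ^ 3) :=
        mul_le_mul_of_nonneg_left (by linarith) hN0.le
      have h4 : (N : ℝ) * (2 * (N : ℝ) ^ 3) = 2 * (N : ℝ) ^ 4 := by ring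
      have h5 : (0 : ℝ) ≤ (N : ℝ) ^ 4 := by positivity
      linarith
    have h3 : 128 * (N : ℝ) ^ 4 ≤ δ / (4 * 5 ^ k) * V := by
      have h4 : c * (N : ℝ) ^ 5 / Lg ^ k ≤ V := by
        rw [hV]
        exact div_le_div_of_nonneg_right (mul_le_mul_of_nonneg_right hCT (by positivity))
          (by positivity)
      refine le_trans ?_ (mul_le_mul_of_nonneg_left h4 (by positivity))
      have h5 : 0 < Lg ^ k := by positivity
      have h6 : δ / (4 * 5 ^ k) * (c * (N : ℝ) ^ 5 / Lg ^ k) =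
          128 * (N : ℝ) ^ 4 * (δ * c / (512 * 5 ^ k) * N) / Lg ^ k := by
        field_simp
        ring
      rw [h6, le_div_iff₀ h5]
      exact mul_le_mul_of_nonneg_left g1 (by positivity)
    linarith
  have hmain : δ / 5 ^ k * V ≤ δ / (4 * 5 ^ k) * V + G * (C * CT T * U) + δ' * (2 ^ k * V) := by
    have h1 := hlb'.trans (htot.trans (add_le_add_right hsum _))
    have h2 : (N : ℝ) * (δ' * CT T * U + (L + 1)) = δ' * (2 ^ k * V) + N * (L + 1) := by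
      rw [← hNU]; ring
    rw [h2] at h1
    linarith
  have hd1 : δ' * (2 ^ k * V) ≤ δ / (4 * 5 ^ k) * V := by
    have h1 : δ' ≤ δ / (4 * 5 ^ k * 2 ^ k) := by rw [hδ']; exact min_le_left _ _
    calc δ' * (2 ^ k * V) ≤ δ / (4 * 5 ^ k * 2 ^ k) * (2 ^ k * V) :=
          mul_le_mul_of_nonneg_right h1 (by positivity)
      _ = δ / (4 * 5 ^ k) * V := by field_simp
  have hd2 : δ / (2 * 5 ^ k) * V ≤ G * (C * CT T * U) := by
    have : δ / 5 ^ k * V = δ / (4 * 5 ^ k) * V + δ / (4 * 5 ^ k) * V + δ / (2 * 5 ^ k) * V := by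
      field_simp
      ring
    linarith
  have hd3 : δ' ≤ δ / (4 * 5 ^ k * (C * 2 ^ k)) := by rw [hδ']; exact min_le_right _ _
  have hd4 : δ' * (C * 2 ^ k) ≤ δ / (4 * 5 ^ k) := by
    calc δ' * (C * 2 ^ k) ≤ δ / (4 * 5 ^ k * (C * 2 ^ k)) * (C * 2 ^ k) :=
          mul_le_mul_of_nonneg_right hd3 (by positivity)
      _ = δ / (4 * 5 ^ k) := by field_simp
  have hd5 : δ / (4 * 5 ^ k) ≤ δ / (2 * 5 ^ k) := by
    apply div_le_div_of_nonneg_left hδ.le (by positivity)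
    have : (0 : ℝ) < 5 ^ k := by positivity
    linarith
  -- divide by `C * CT T * U`
  have hpos : 0 < C * CT T * U := by positivity
  have hd6 : δ' * N * (C * CT T * U) ≤ G * (C * CT T * U) := by
    calc δ' * N * (C * CT T * U) = δ' * C * (N * (CT T * U)) := by ring
      _ = δ' * (C * 2 ^ k) * V := by rw [hNU]; ring
      _ ≤ δ / (4 * 5 ^ k) * V := mul_le_mul_of_nonneg_right hd4 hV0.le
      _ ≤ δ / (2 * 5 ^ k) * V := mul_le_mul_of_nonneg_right hd5 hV0.le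
      _ ≤ _ := hd2
  exact le_of_mul_le_mul_right hd6 hpos

/-- the hypothesis on `Q` if all the numbers `m + t` are prime -/
lemma rough_of_prime {T : Finset ℕ} {Q : ℕ → Prop} (hQ : ∀ m, Q m → ∀ t ∈ T, (m + t).Prime)
    (N : ℕ) : ∀ n, 32 ≤ n → n ≤ N → ∀ m, n ^ 5 ≤ m → m < (n + 1) ^ 5 → Q m →
      ∀ t ∈ T, ∀ l : ℕ, l.Prime → l ^ 8 ≤ (n + 1) ^ 5 - n ^ 5 → ¬ l ∣ m + t := by
  intro n hn _ m hm _ hQm t ht l hl hl8 hdvd
  have h1 : l = m + t := (Nat.prime_dvd_prime_iff_eq hl (hQ m hQm t ht)).1 hdvd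
  have h2 := diff_lt hn
  have h3 : l ≤ l ^ 8 := Nat.le_self_pow (by norm_num) _
  have h4 : 1 ≤ n ^ 5 := Nat.one_le_pow _ _ (by omega)
  omega

end Pool.Agent.J4.H57.QP
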