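import Pool.Agent.N136.OW.SV
import Pool.Agent.N75.OW.SG
import Pool.Agent.Helper22K9.Trp.Sing

/-!
# An upper bound sieve for prime tuples in short intervals, uniform in the pattern (helper57)

The sieve is the large sieve of the starting files in the form `Pool.Agent.N136.OW.sv2` (helper136) with
`Pool.Agent.N75.OW.sg`; here it is compared with the singular series.
-/

set_option autoImplicit false

namespace Pool.Agent.J4.H57.QP

open Finset Pool.Agent.H387R2.Uni Pool.Agent.Helper22K9.Trp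

lemma exp_le_one_sub {u : ℝ} (h0 : 0 ≤ u) (h1 : u ≤ 1 / 2) : Real.exp (-u - 2 * u ^ 2) ≤ 1 - u := by
  have hu : 0 < 1 - u := by linarith
  have h2 := Real.one_sub_inv_le_log_of_pos hu
  have h3 : -u - 2 * u ^ 2 ≤ 1 - (1 - u)⁻¹ := by
    have h4 : (1 - u)⁻¹ ≤ 1 + u + 2 * u ^ 2 := by
      rw [inv_le_iff_one_le_mul₀ hu]
      nlinarith [mul_nonneg h0 h0, mul_nonneg (mul_nonneg h0 h0) (by linarith : (0 : ℝ) ≤ 1 - 2 * u)]
    linarith
  calc Real.exp (-u - 2 * u ^ 2) ≤ Real.exp (Real.log (1 - u)) := Real.exp_le_exp.2 (h3.trans h2)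
    _ = 1 - u := Real.exp_log hu

/-- lower bound for the local factor in exponential form -/
lemma locT_exp (T : Finset ℕ) {p : ℕ} (hp : 2 ≤ p) (h2 : 2 * T.card ≤ p) :
    Real.exp (((T.card : ℝ) - nuT T p) / p - 2 * (T.card : ℝ) ^ 2 * ((p : ℝ) ^ 2)⁻¹) ≤ locT T p := by
  unfold locT
  obtain ⟨r, hr⟩ : ∃ r, r = T.card := ⟨_, rfl⟩
  obtain ⟨v, hv⟩ : ∃ v, v = nuT T p := ⟨_, rfl⟩
  have hvr : v ≤ r := by rw [hv, hr]; exact nuT_le T p
  rw [← hr] at h2
  rw [← hr, ← hv]
  have hp2 : (2 : ℝ) ≤ p := by exact_mod_cast hp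
  have hp0 : (0 : ℝ) < p := by linarith
  have hvr' : (v : ℝ) ≤ r := by exact_mod_cast hvr
  have h2' : 2 * (r : ℝ) ≤ p := by exact_mod_cast h2
  have hv0 : (0 : ℝ) ≤ v := Nat.cast_nonneg _
  have hx : (1 : ℝ) / p < 1 := by rw [div_lt_one hp0]; linarith
  have hpos : 0 < (1 - 1 / (p : ℝ)) ^ r := pow_pos (by linarith) _
  rw [le_div_iff₀ hpos]
  have e1 : (1 - 1 / (p : ℝ)) ^ r ≤ Real.exp (-(r / p)) := by
    have h3 : 1 - 1 / (p : ℝ) ≤ Real.exp (-(1 / p)) := by
      have := Real.add_one_le_exp (-(1 / (p : ℝ)))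
      linarith
    calc (1 - 1 / (p : ℝ)) ^ r ≤ Real.exp (-(1 / p)) ^ r := pow_le_pow_left₀ (by linarith) h3 r
      _ = Real.exp (-(r / p)) := by rw [← Real.exp_nat_mul]; congr 1; ring
  have hu0 : (0 : ℝ) ≤ v / p := by positivity
  have hu1 : (v : ℝ) / p ≤ 1 / 2 := by rw [div_le_div_iff₀ hp0 (by norm_num)]; linarith
  have e2 := exp_le_one_sub hu0 hu1
  have e3 : (v : ℝ) / p ≤ r / p := div_le_div_of_nonneg_right hvr' hp0.le
  calc Real.exp (((r : ℝ) - v) / p - 2 * (r : ℝ) ^ 2 * ((p : ℝ) ^ 2)⁻¹) * (1 - 1 / (p : ℝ)) ^ r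
      ≤ Real.exp (((r : ℝ) - v) / p - 2 * (r : ℝ) ^ 2 * ((p : ℝ) ^ 2)⁻¹) * Real.exp (-(r / p)) :=
        mul_le_mul_of_nonneg_left e1 (Real.exp_pos _).le
    _ = Real.exp (-(v / p) - 2 * ((r : ℝ) / p) ^ 2) := by
        rw [← Real.exp_add]; congr 1; field_simp; ring
    _ ≤ Real.exp (-(v / p) - 2 * ((v : ℝ) / p) ^ 2) := by
        apply Real.exp_le_exp.2
        have := pow_le_pow_left₀ hu0 e3 2
        linarith
    _ ≤ 1 - v / p := e2

lemma locT_small {T : Finset ℕ} (hT : Adm T) {p : ℕ} (hp : p.Prime) : 1 / (p : ℝ) ≤ locT T p := by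
  unfold locT
  have hp2 : (2 : ℝ) ≤ p := by exact_mod_cast hp.two_le
  have hp0 : (0 : ℝ) < p := by linarith
  have h1 : nuT T p < p := hT p hp
  have h2 : ((nuT T p : ℕ) : ℝ) + 1 ≤ p := by exact_mod_cast h1
  have hx : (1 : ℝ) / p < 1 := by rw [div_lt_one hp0]; linarith
  have hx0 : (0 : ℝ) < 1 / p := by positivity
  have hpos : 0 < (1 - 1 / (p : ℝ)) ^ T.card := pow_pos (by linarith) _
  have hle : (1 - 1 / (p : ℝ)) ^ T.card ≤ 1 := pow_le_one₀ (by linarith) (by linarith)
  rw [le_div_iff₀ hpos]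
  calc 1 / (p : ℝ) * (1 - 1 / (p : ℝ)) ^ T.card ≤ 1 / (p : ℝ) * 1 :=
        mul_le_mul_of_nonneg_left hle hx0.le
    _ ≤ 1 - (nuT T p : ℝ) / p := by
        rw [mul_one, le_sub_iff_add_le, ← add_div, div_le_one hp0]
        linarith

/-- the sieve factor is bounded by the singular series -/
theorem exp_le_CT (k : ℕ) : ∃ C : ℝ, 0 < C ∧ ∀ (T : Finset ℕ) (M : ℕ), T.card = k → Adm T →
    Real.exp (∑ l ∈ (Ioc (k ^ 2 + 2) M).filter Nat.Prime, ((k : ℝ) - nuT T l) / l) ≤ C * CT T := by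
  classical
  obtain ⟨y, hy⟩ : ∃ y, y = k ^ 2 + 2 := ⟨_, rfl⟩
  have hy0 : (0 : ℝ) < y := by rw [hy]; positivity
  refine ⟨2 * ((y : ℝ) ^ y * Real.exp 2), by positivity, fun T M hk hT => ?_⟩
  rw [← hy]
  obtain ⟨M', hM'⟩ : ∃ M', M' = max M (2 * y) := ⟨_, rfl⟩
  have hMM : M ≤ M' := by rw [hM']; exact le_max_left _ _
  have hyM : 2 * y ≤ M' := by rw [hM']; exact le_max_right _ _
  have hy2 : 2 ≤ y := by omega
  have hky : k ^ 2 ≤ y := by omega
  have hkk : k ≤ k ^ 2 := by nlinarith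
  have h2k : 2 * k ≤ y := by
    rw [hy]
    zify
    nlinarith [sq_nonneg ((k : ℤ) - 1)]
  have hM0 : (0 : ℝ) < M' := by
    have : 0 < M' := by omega
    exact_mod_cast this
  -- the singular series and the product up to `M'`
  have h1 := CT_ge' T M' (by omega) (by rw [hk]; omega)
  rw [← sy_en] at h1
  have h2 : (1 : ℝ) / 2 ≤ 1 - (T.card : ℝ) ^ 2 / M' := by
    have h3 : (T.card : ℝ) ^ 2 / M' ≤ 1 / 2 := by
      rw [hk, div_le_div_iff₀ hM0 (by norm_num)]
      have : 2 * k ^ 2 ≤ M' := by omega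
      have h4 : 2 * (k : ℝ) ^ 2 ≤ M' := by exact_mod_cast this
      linarith
    linarith
  have hsy : Pool.Agent.H386R2.HL.sy (en T) M' = ∏ p ∈ (M' + 1).primesBelow, locT T p := by
    unfold Pool.Agent.H386R2.HL.sy
    exact Finset.prod_congr rfl fun p _ => loc_en T p
  have hprimes : (M' + 1).primesBelow =
      (Ioc y M').filter Nat.Prime ∪ (Icc 1 y).filter Nat.Prime := by
    ext p
    simp only [Nat.mem_primesBelow, mem_union, mem_filter, mem_Ioc, mem_Icc]
    constructor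
    · rintro ⟨g1, g2⟩
      have := g2.one_le
      by_cases g3 : y < p
      · exact Or.inl ⟨⟨g3, by omega⟩, g2⟩
      · exact Or.inr ⟨⟨this, by omega⟩, g2⟩
    · rintro (⟨⟨g1, g2⟩, g3⟩ | ⟨⟨g1, g2⟩, g3⟩)
      · exact ⟨by omega, g3⟩
      · exact ⟨by omega, g3⟩
  have hdisj : Disjoint ((Ioc y M').filter Nat.Prime) ((Icc 1 y).filter Nat.Prime) := by
    rw [Finset.disjoint_left]
    intro p hp1 hp2
    rw [mem_filter, mem_Ioc] at hp1
    rw [mem_filter, mem_Icc] at hp2
    omega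
  rw [hsy, hprimes, prod_union hdisj] at h1
  -- the large primes
  have hbig : Real.exp (∑ l ∈ (Ioc y M').filter Nat.Prime, ((k : ℝ) - nuT T l) / l - 2) ≤
      ∏ p ∈ (Ioc y M').filter Nat.Prime, locT T p := by
    have h3 : ∏ p ∈ (Ioc y M').filter Nat.Prime,
        Real.exp (((k : ℝ) - nuT T p) / p - 2 * (k : ℝ) ^ 2 * ((p : ℝ) ^ 2)⁻¹) ≤
        ∏ p ∈ (Ioc y M').filter Nat.Prime, locT T p := by
      refine Finset.prod_le_prod (fun p _ => (Real.exp_pos _).le) fun p hp => ?_
      rw [mem_filter, mem_Ioc] at hp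
      have h4 := locT_exp T hp.2.two_le (by rw [hk]; omega)
      rw [hk] at h4
      exact h4
    rw [← Real.exp_sum, Finset.sum_sub_distrib, ← Finset.mul_sum] at h3
    refine le_trans (Real.exp_le_exp.2 ?_) h3
    have h5 := sum_inv_sq_gt (y := y) (by omega) ((Ioc y M').filter Nat.Prime) (by
      intro p hp
      rw [mem_filter, mem_Ioc] at hp
      exact hp.1.1)
    have h6 : 2 * (k : ℝ) ^ 2 * ∑ p ∈ (Ioc y M').filter Nat.Prime, ((p : ℝ) ^ 2)⁻¹ ≤ 2 := by
      have h7 : (k : ℝ) ^ 2 ≤ y := by exact_mod_cast hky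
      calc 2 * (k : ℝ) ^ 2 * ∑ p ∈ (Ioc y M').filter Nat.Prime, ((p : ℝ) ^ 2)⁻¹
          ≤ 2 * y * (1 / y) := by
            apply mul_le_mul (by linarith) h5 (Finset.sum_nonneg fun p _ => by positivity)
              (by positivity)
        _ = 2 := by field_simp
    linarith
  -- the small primes
  have hsmall : 1 / (y : ℝ) ^ y ≤ ∏ p ∈ (Icc 1 y).filter Nat.Prime, locT T p := by
    have h3 : ∏ p ∈ (Icc 1 y).filter Nat.Prime, (1 / (y : ℝ)) ≤
        ∏ p ∈ (Icc 1 y).filter Nat.Prime, locT T p := by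
      refine Finset.prod_le_prod (fun p _ => by positivity) fun p hp => ?_
      rw [mem_filter, mem_Icc] at hp
      refine le_trans ?_ (locT_small hT hp.2)
      have hp0 : (0 : ℝ) < p := by exact_mod_cast hp.2.pos
      exact one_div_le_one_div_of_le hp0 (by exact_mod_cast hp.1.2)
    rw [Finset.prod_const] at h3
    refine le_trans ?_ h3
    rw [← one_div_pow]
    refine pow_le_pow_of_le_one (by positivity) ?_ ?_
    · rw [div_le_one hy0]
      exact_mod_cast (by omega : 1 ≤ y)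
    · refine (Finset.card_filter_le _ _).trans ?_
      simp
  have hE : ∑ l ∈ (Ioc y M).filter Nat.Prime, ((k : ℝ) - nuT T l) / l ≤
      ∑ l ∈ (Ioc y M').filter Nat.Prime, ((k : ℝ) - nuT T l) / l := by
    refine Finset.sum_le_sum_of_subset_of_nonneg ?_ fun l _ _ => ?_
    · exact Finset.filter_subset_filter _ (Finset.Ioc_subset_Ioc_right hMM)
    · have : (nuT T l : ℝ) ≤ k := by rw [← hk]; exact_mod_cast nuT_le T l
      exact div_nonneg (by linarith) (Nat.cast_nonneg _)
  have hprod : Real.exp (∑ l ∈ (Ioc y M').filter Nat.Prime, ((k : ℝ) - nuT T l) / l - 2) *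
      (1 / (y : ℝ) ^ y) ≤ (∏ p ∈ (Ioc y M').filter Nat.Prime, locT T p) *
        ∏ p ∈ (Icc 1 y).filter Nat.Prime, locT T p :=
    mul_le_mul hbig hsmall (by positivity) ((Real.exp_pos _).le.trans hbig)
  have hfin : 1 / 2 * (Real.exp (∑ l ∈ (Ioc y M').filter Nat.Prime, ((k : ℝ) - nuT T l) / l - 2) *
      (1 / (y : ℝ) ^ y)) ≤ CT T := by
    refine le_trans (mul_le_mul h2 hprod (by positivity) (by linarith)) h1
  rw [Real.exp_sub] at hfin
  calc Real.exp (∑ l ∈ (Ioc y M).filter Nat.Prime, ((k : ℝ) - nuT T l) / l)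
      ≤ Real.exp (∑ l ∈ (Ioc y M').filter Nat.Prime, ((k : ℝ) - nuT T l) / l) :=
        Real.exp_le_exp.2 hE
    _ = 2 * ((y : ℝ) ^ y * Real.exp 2) * (1 / 2 * (Real.exp (∑ l ∈ (Ioc y M').filter Nat.Prime,
          ((k : ℝ) - nuT T l) / l) / Real.exp 2 * (1 / (y : ℝ) ^ y))) := by
        field_simp
    _ ≤ 2 * ((y : ℝ) ^ y * Real.exp 2) * CT T :=
        mul_le_mul_of_nonneg_left hfin (by positivity)

/-- the singular series of an admissible set is bounded from below -/
theorem CT_lower (k : ℕ) : ∃ c : ℝ, 0 < c ∧ ∀ T : Finset ℕ, T.card = k → Adm T → c ≤ CT T := by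
  obtain ⟨C, hC, h⟩ := exp_le_CT k
  refine ⟨1 / C, by positivity, fun T hk hT => ?_⟩
  have h1 := h T 0 hk hT
  have h2 : (Ioc (k ^ 2 + 2) 0).filter Nat.Prime = ∅ := by
    rw [Finset.filter_eq_empty_iff]
    intro x hx
    rw [mem_Ioc] at hx
    omega
  rw [h2, Finset.sum_empty, Real.exp_zero] at h1
  rw [div_le_iff₀ hC]
  linarith

open Classical in
/-- the upper bound sieve in every interval of length `M` -/
theorem upper (k : ℕ) (hk : 1 ≤ k) : ∃ C : ℝ, 0 < C ∧ ∃ M₀ : ℕ, ∀ (M b : ℕ) (T : Finset ℕ)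
    (Q : ℕ → Prop), M₀ ≤ M → T.card = k → Adm T →
    (∀ m, b + 1 ≤ m → m ≤ b + M → Q m → ∀ t ∈ T, ∀ l : ℕ, l.Prime → l ^ 8 ≤ M → ¬ l ∣ m + t) →
    (((Icc (b + 1) (b + M)).filter Q).card : ℝ) ≤ C * CT T * (M / Real.log M ^ k) := by
  obtain ⟨C0, hC0, h0⟩ := Pool.Agent.N136.OW.sv2 Pool.Agent.N75.OW.sg
  obtain ⟨C8, hC8, h8⟩ : ∃ C8 : ℝ, C0 ≤ C8 ∧ 8 ≤ C8 := ⟨max C0 8, le_max_left _ _, le_max_right _ _⟩
  obtain ⟨D, hD, h0⟩ := h0 C8 hC8
  obtain ⟨C1, hC1, h1⟩ := exp_le_CT k
  obtain ⟨y, hy⟩ : ∃ y, y = k ^ 2 + 2 := ⟨_, rfl⟩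
  have hy2 : 2 ≤ y := by omega
  have hly : 0 < Real.log y := Real.log_pos (by exact_mod_cast (by omega : 1 < y))
  have hkR : (1 : ℝ) ≤ k := by exact_mod_cast hk
  obtain ⟨M₀, hM₀⟩ := Filter.eventually_atTop.1
    ((Real.tendsto_log_atTop.comp tendsto_natCast_atTop_atTop).eventually_ge_atTop
      (C8 * k * Real.log y))
  refine ⟨D ^ k * C1 * (k * Real.log y) ^ k, by positivity, max M₀ 2,
    fun M b T Q hM hTk hT hQ => ?_⟩
  have hM2 : 2 ≤ M := (le_max_right _ _).trans hM
  have hlM : C8 * k * Real.log y ≤ Real.log M := hM₀ M ((le_max_left _ _).trans hM)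
  have hlM0 : 0 < Real.log M := Real.log_pos (by exact_mod_cast (by omega : 1 < M))
  obtain ⟨I, hI⟩ : ∃ I : ℕ → Finset ℕ, I = fun l => T.image (fun t => (l - (b + t) % l) % l) :=
    ⟨_, rfl⟩
  obtain ⟨A, hA⟩ : ∃ A : Finset ℕ, A = (Icc 1 M).filter (fun a => Q (b + a)) := ⟨_, rfl⟩
  have hcard : ((Icc (b + 1) (b + M)).filter Q).card = A.card := by
    symm
    refine Finset.card_bij (fun a _ => b + a) ?_ ?_ ?_
    · intro a ha
      rw [hA, mem_filter, mem_Icc] at ha
      rw [mem_filter, mem_Icc]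
      exact ⟨⟨by omega, by omega⟩, ha.2⟩
    · intro a _ a' _ h
      omega
    · intro m hm
      rw [mem_filter, mem_Icc] at hm
      refine ⟨m - b, ?_, by omega⟩
      rw [hA, mem_filter, mem_Icc]
      refine ⟨⟨by omega, by omega⟩, ?_⟩
      rw [show b + (m - b) = m by omega]
      exact hm.2
  have key := h0 k M y (∑ l ∈ (Ioc y M).filter Nat.Prime, ((k : ℝ) - nuT T l) / l) I A hk hy2
    (by omega) hlM (by rw [hA]; exact Finset.filter_subset _ _) (by
      intro l hl _
      rw [hI]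
      refine ⟨?_, ?_⟩
      · intro r hr
        rw [mem_image] at hr
        obtain ⟨t, _, rfl⟩ := hr
        rw [mem_range]
        exact Nat.mod_lt _ hl.pos
      · exact Finset.card_image_le.trans hTk.le) (by
      intro a ha l hl _ hlog hmem
      rw [hI, mem_image] at hmem
      obtain ⟨t, ht, hat⟩ := hmem
      rw [hA, mem_filter, mem_Icc] at ha
      have hlpos : 0 < l := hl.pos
      have hdvd : l ∣ b + a + t := by
        have h2 : (b + a + t) % l = 0 := by
          have h3 : (b + a + t) % l = ((b + t) % l + a % l) % l := by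
            rw [← Nat.add_mod]
            congr 1
            ring
          rw [h3, ← hat]
          have h4 : (b + t) % l < l := Nat.mod_lt _ hlpos
          rw [Nat.add_mod_mod]
          rw [show (b + t) % l + (l - (b + t) % l) = l by omega]
          exact Nat.mod_self l
        exact Nat.dvd_of_mod_eq_zero h2
      refine hQ (b + a) (by omega) (by omega) ha.2 t ht l hl ?_ hdvd
      have h5 : Real.log ((l : ℝ) ^ 8) ≤ Real.log M := by
        refine le_trans ?_ hlog
        have h6 : 0 ≤ Real.log l := Real.log_natCast_nonneg l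
        have h7 : 8 ≤ C8 * k := by nlinarith
        rw [Real.log_pow]
        push_cast
        nlinarith
      have h9 := (Real.log_le_log_iff (by positivity) (by exact_mod_cast (by omega : 0 < M))).1 h5
      exact_mod_cast h9) (by
      refine Finset.sum_le_sum fun l hl => ?_
      rw [mem_filter, mem_Ioc] at hl
      have hlpos : 0 < l := hl.2.pos
      refine div_le_div_of_nonneg_right ?_ (Nat.cast_nonneg _)
      have h2 : nuT T l ≤ (I l).card := by
        have h3 : T.image (· % l) = (I l).image (fun r => (l - (b + r) % l) % l) := by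
          rw [hI, Finset.image_image]
          refine Finset.image_congr fun t _ => ?_
          simp only [Function.comp_apply]
          have h4 : (b + t) % l < l := Nat.mod_lt _ hlpos
          -- `(b + r) % l` with `r = (l - (b+t)%l) % l`
          have h5 : (b + (l - (b + t) % l) % l) % l = (l - t % l) % l := by
            rw [Nat.add_mod_mod]
            have h6 : t % l < l := Nat.mod_lt _ hlpos
            have h7 : b + (l - (b + t) % l) ≡ l - t % l [MOD l] := by
              have h8 : b + (l - (b + t) % l) + (t % l + (b + t) % l) ≡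
                  l - t % l + (t % l + (b + t) % l) [MOD l] := by
                have e1 : b + (l - (b + t) % l) + (t % l + (b + t) % l) = b + t % l + l := by omega
                have e2 : l - t % l + (t % l + (b + t) % l) = (b + t) % l + l := by omega
                rw [e1, e2]
                refine Nat.ModEq.add_right l ?_
                have e3 : b + t % l ≡ b + t [MOD l] := Nat.ModEq.add_left b (Nat.mod_modEq t l)
                exact e3.trans (Nat.mod_modEq (b + t) l).symm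
              exact Nat.ModEq.add_right_cancel' _ h8
            exact h7
          rw [h5]
          have h6 : t % l < l := Nat.mod_lt _ hlpos
          rcases Nat.eq_zero_or_pos (t % l) with h9 | h9
          · rw [h9, Nat.sub_zero, Nat.mod_self, Nat.sub_zero, Nat.mod_self]
          · rw [Nat.mod_eq_of_lt (show l - t % l < l by omega)]
            rw [show l - (l - t % l) = t % l by omega]
            exact (Nat.mod_mod t l).symm
        unfold nuT
        rw [h3]
        exact Finset.card_image_le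
      have h4 : (nuT T l : ℝ) ≤ (I l).card := by exact_mod_cast h2
      linarith)
  rw [hcard]
  have h2 := h1 T M hTk hT
  rw [← hy] at h2
  have hM0 : (0 : ℝ) ≤ M := Nat.cast_nonneg _
  calc (A.card : ℝ) ≤ D ^ k * Real.exp (∑ l ∈ (Ioc y M).filter Nat.Prime, ((k : ℝ) - nuT T l) / l) *
        (k * Real.log y / Real.log M) ^ k * M := key
    _ ≤ D ^ k * (C1 * CT T) * (k * Real.log y / Real.log M) ^ k * M := by
        refine mul_le_mul_of_nonneg_right (mul_le_mul_of_nonneg_right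
          (mul_le_mul_of_nonneg_left h2 (by positivity)) (by positivity)) hM0
    _ = D ^ k * C1 * (k * Real.log y) ^ k * CT T * (M / Real.log M ^ k) := by
        rw [div_pow]
        ring

end Pool.Agent.J4.H57.QP
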