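import Pool.Agent.J4.H57.QP.Tr

/-!
# Quadruplets between consecutive fifth powers: the common step of the results (helper57)
-/

set_option autoImplicit false

namespace Pool.Agent.J4.H57.QP

open Finset Filter Pool.Agent.H387R2.Uni

theorem adm_of_ne {T : Finset ℕ} (h : CT T ≠ 0) : Adm T := by
  intro p hp
  by_contra hn
  apply h
  unfold CT
  refine tprod_of_exists_eq_zero ⟨⟨p, hp⟩, ?_⟩
  have h1 : nuT T p = p := by
    refine le_antisymm ?_ (not_lt.1 hn)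
    unfold nuT
    calc (T.image (· % p)).card ≤ (range p).card := by
          refine card_le_card fun r hr => ?_
          obtain ⟨t, _, rfl⟩ := mem_image.1 hr
          exact mem_range.2 (Nat.mod_lt _ hp.pos)
      _ = p := card_range p
  have hp0 : (p : ℝ) ≠ 0 := by exact_mod_cast hp.ne_zero
  change locT T p = 0
  unfold locT
  rw [h1, div_self hp0, sub_self, zero_div]

open Classical in
theorem cnt_eq {Q : ℕ → Prop} {T : Finset ℕ} (hT : T.Nonempty) (n : ℕ) :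
    cnt Q T n = {m : ℕ | Q m ∧ ∀ t ∈ T, n ^ 5 < m + t ∧ m + t < (n + 1) ^ 5}.ncard := by
  unfold cnt
  rw [← Set.ncard_coe_finset]
  congr 1
  ext m
  rw [Finset.mem_coe, mem_filter, mem_range]
  constructor
  · rintro ⟨_, h⟩
    exact h
  · intro h
    obtain ⟨t, ht⟩ := hT
    have h2 : Q m ∧ ∀ t ∈ T, n ^ 5 < m + t ∧ m + t < (n + 1) ^ 5 := h
    exact ⟨by have := (h2.2 t ht).2; omega, h2⟩

open Classical in
/-- for at least `δ N` of the `n ≤ N` the number `c n` is at least `δ S n ^ 4 / (log n) ^ 4` -/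
def OftS (δ S : ℝ) (c : ℕ → ℕ) (N : ℕ) : Prop :=
  δ * N ≤ (((Icc 1 N).filter (fun n : ℕ =>
    δ * S * ((n : ℝ) ^ 4 / Real.log n ^ 4) ≤ (c n : ℝ))).card : ℝ)

open Classical in
theorem oftS_mono {δ δ' S : ℝ} (hS : 0 ≤ S) (h : δ' ≤ δ) {c : ℕ → ℕ} {N : ℕ}
    (h1 : OftS δ S c N) : OftS δ' S c N := by
  unfold OftS at h1 ⊢
  refine le_trans (mul_le_mul_of_nonneg_right h (Nat.cast_nonneg _)) (h1.trans ?_)
  have hsub : (Icc 1 N).filter (fun n : ℕ => δ * S * ((n : ℝ) ^ 4 / Real.log n ^ 4) ≤ (c n : ℝ)) ⊆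
      (Icc 1 N).filter (fun n : ℕ => δ' * S * ((n : ℝ) ^ 4 / Real.log n ^ 4) ≤ (c n : ℝ)) := by
    intro n hn
    rw [mem_filter] at hn ⊢
    refine ⟨hn.1, le_trans ?_ hn.2⟩
    have h3 : (0 : ℝ) ≤ (n : ℝ) ^ 4 / Real.log n ^ 4 :=
      div_nonneg (by positivity) (pow_nonneg (Real.log_natCast_nonneg n) 4)
    exact mul_le_mul_of_nonneg_right (mul_le_mul_of_nonneg_right h hS) h3
  exact_mod_cast card_le_card hsub

open Classical in
/-- the common step, rough version -/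
theorem step {κ : ℝ} (hκ : 0 < κ) : ∃ δ : ℝ, 0 < δ ∧ ∃ N₀ : ℕ, ∀ N : ℕ, N₀ ≤ N →
    ∀ T : Finset ℕ, T.card = 4 → (∀ t ∈ T, t ≤ N ^ 3) →
    ∀ Q : ℕ → Prop, (∀ n, 32 ≤ n → n ≤ N → ∀ m, n ^ 5 ≤ m → m < (n + 1) ^ 5 → Q m →
      ∀ t ∈ T, ∀ l : ℕ, l.Prime → l ^ 8 ≤ (n + 1) ^ 5 - n ^ 5 → ¬ l ∣ m + t) →
    κ * CT T * (((N ^ 5 : ℕ) : ℝ) / Real.log ((N ^ 5 : ℕ) : ℝ) ^ 4) ≤
      (((Icc 1 (N ^ 5)).filter Q).card : ℝ) →
    OftS δ (CT T) (fun n => {m : ℕ | Q m ∧ ∀ t ∈ T, n ^ 5 < m + t ∧ m + t < (n + 1) ^ 5}.ncard)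
      N := by
  obtain ⟨δ, hδ, N₀, hN₀⟩ := transfer 4 (by norm_num) κ hκ
  refine ⟨min δ 1, lt_min hδ one_pos, N₀, fun N hN T hT hTB Q hQ hlb => ?_⟩
  have hne : T.Nonempty := by
    rw [← Finset.card_pos]; omega
  by_cases h0 : CT T = 0
  · unfold OftS
    have h1 : (Icc 1 N).filter (fun n : ℕ => min δ 1 * CT T * ((n : ℝ) ^ 4 / Real.log n ^ 4) ≤
        (({m : ℕ | Q m ∧ ∀ t ∈ T, n ^ 5 < m + t ∧ m + t < (n + 1) ^ 5}.ncard : ℕ) : ℝ)) =
        Icc 1 N := by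
      rw [Finset.filter_eq_self]
      intro n _
      rw [h0, mul_zero, zero_mul]
      exact Nat.cast_nonneg _
    rw [h1, Nat.card_Icc, Nat.add_sub_cancel]
    calc min δ 1 * (N : ℝ) ≤ 1 * N := mul_le_mul_of_nonneg_right (min_le_right _ _) (Nat.cast_nonneg _)
      _ = N := one_mul _
  · refine oftS_mono (CT_nonneg T) (min_le_left _ _) ?_
    have h1 := hN₀ N hN T hT (adm_of_ne h0) hTB Q hQ hlb
    unfold OftS
    refine h1.trans (le_of_eq ?_)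
    congr 2
    refine Finset.filter_congr fun n _ => ?_
    rw [cnt_eq hne]

/-- powers of the logarithm are small -/
theorem log_small (C : ℝ) : ∀ᶠ N : ℕ in atTop, Real.log (N : ℝ) ^ C ≤ ((N ^ 3 : ℕ) : ℝ) := by
  have h1 := (isLittleO_log_rpow_rpow_atTop C (show (0 : ℝ) < 1 by norm_num)).bound
    (show (0 : ℝ) < 1 by norm_num)
  filter_upwards [tendsto_natCast_atTop_atTop.eventually h1, eventually_ge_atTop 1] with N hN hN1
  have hN1' : (1 : ℝ) ≤ N := by exact_mod_cast hN1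
  rw [Real.rpow_one, Real.norm_of_nonneg (Real.rpow_nonneg (Real.log_nonneg hN1') _),
    Real.norm_of_nonneg (by linarith), one_mul] at hN
  refine hN.trans ?_
  push_cast
  exact le_self_pow₀ hN1' (by norm_num)

theorem log_pow5 (N : ℕ) : Real.log ((N ^ 5 : ℕ) : ℝ) = 5 * Real.log N := by
  push_cast
  rw [Real.log_pow]
  norm_num

end Pool.Agent.J4.H57.QP
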