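import Mathlib
import Pool.Agent.J4.H38.CH.Tw3
import Pool.Agent.J4.H38.SR2.Uni3
import Pool.Agent.J4.H38.SR.Rl
import Pool.Agent.J4.H57.QP.St

/-!
# Primes with one fixed shift and almost all further shifts: the count up to `x` in the notation of the files of helper38
(the argument of the file ChenTriples of helper38, with the internal definitions)
-/

set_option autoImplicit false

namespace Pool.Agent.J4.H57.QP

open Finset Filter
open Pool.Agent.H387R2.Uni Pool.Agent.J4.H38.SR Pool.Agent.J4.H38.SR2 Pool.Agent.J4.H38.SR3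
  Pool.Agent.J4.H38.CH
open Pool.Agent.H373R2.T7 (pz mem_pz)

/-- the distance of two values -/
lemma dd_natAbs (a b : ℕ) : dd (a, b) = ((b : ℤ) - a).natAbs := by
  unfold dd
  simp only
  rcases le_total a b with h | h
  · rw [max_eq_right h, min_eq_left h]; omega
  · rw [max_eq_left h, min_eq_right h]; omega

/-- the averages over an interval -/
lemma int_avg {C : ℝ} (hC : 0 ≤ C) : ∃ K : ℝ, 0 ≤ K ∧ ∀ H x y : ℕ, 3 ≤ H → Real.log x ≤ H → H ≤ x → ∀ c ≤ x,
    ∑ m ∈ (Icc 1 H).filter (fun m => m ≠ c), gy y C (dd (c, m)) ≤ K * H := by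
  obtain ⟨K, hK, h⟩ := poly_avg Polynomial.X (by rw [Polynomial.natDegree_X]) hC
  refine ⟨K, hK.le, fun H x y hH hx hHx c hc => ?_⟩
  refine le_trans (le_of_eq ?_) (h H y x hH hx (c : ℤ) fun m hm => ?_)
  · have e : (Icc 1 H).filter (fun m => m ≠ c) =
        (Icc 1 H).filter (fun m : ℕ => (Polynomial.X : Polynomial ℤ).eval (m : ℤ) ≠ c) := by
      refine filter_congr fun m _ => ?_
      rw [Polynomial.eval_X, Ne, Ne, Nat.cast_inj]
    rw [e]
    refine sum_congr rfl fun m _ => ?_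
    rw [Polynomial.eval_X, dd_natAbs]
  · rw [Polynomial.eval_X]
    have := (mem_Icc.1 hm).2
    omega

/-- the bound for the exceptional sets -/
theorem coreT : ∃ c : ℝ, 0 < c ∧ ∀ a k : ℕ, 1 ≤ a → 1 ≤ k → ∀ ε : ℝ, 0 < ε → ∃ Λ x₀ : ℝ, ∀ x : ℕ, x₀ ≤ x →
    ∀ H : ℕ, Λ * Real.log x ≤ H → 2 * H ≤ x → ∀ Bad : Finset (Finset ℕ),
    (∀ D ∈ Bad, D ∈ ((Icc 1 H).erase a).powersetCard k ∧ ¬ (CT ({0, a} ∪ D) ≠ 0 →
      c ^ (k + 1) * CT ({0, a} ∪ D) * (x / Real.log x ^ (k + 2)) ≤ piT a D x)) →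
    (Bad.card : ℝ) ≤ ε * (H : ℝ) ^ k := by
  classical
  obtain ⟨c, hc, h⟩ := almostT2
  refine ⟨c, hc, fun a k ha hk ε hε => ?_⟩
  obtain ⟨k, rfl⟩ : ∃ j, k = j + 1 := ⟨k - 1, by omega⟩
  have hC0 : (0 : ℝ) ≤ (CKT k 2 : ℝ) := Nat.cast_nonneg _
  obtain ⟨K, hK, hav⟩ := int_avg hC0
  obtain ⟨Λ, hΛ, h⟩ := h k a ε K ha hε hK
  obtain ⟨N₀, hN₀⟩ := eventually_atTop.1 h
  refine ⟨max Λ 3, max N₀ (max a 3), fun x hx H hH hHx2 Bad hBad => ?_⟩
  have hHx : H ≤ x := by omega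
  have hx1 : (N₀ : ℝ) ≤ x := (le_max_left _ _).trans hx
  have hx2 : (a : ℝ) ≤ x := ((le_max_left _ _).trans (le_max_right _ _)).trans hx
  have hx3 : (3 : ℝ) ≤ x := ((le_max_right _ _).trans (le_max_right _ _)).trans hx
  have hxa : a ≤ x := by exact_mod_cast hx2
  have hlx : 1 ≤ Real.log x := by
    have h1 : Real.exp 1 ≤ x := le_trans (by have := Real.exp_one_lt_d9; linarith) hx3
    have := Real.log_le_log (Real.exp_pos 1) h1
    rwa [Real.log_exp] at this
  have hM1 : Λ * Real.log x ≤ H := (mul_le_mul_of_nonneg_right (le_max_left _ _) (by linarith)).trans hH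
  have hM2 : 3 * Real.log x ≤ H := (mul_le_mul_of_nonneg_right (le_max_right _ _) (by linarith)).trans hH
  have hH3 : 3 ≤ H := by
    have : (3 : ℝ) ≤ H := by linarith
    exact_mod_cast this
  have hav' : ∀ y c : ℕ, c ≤ x → ∑ m ∈ (Icc 1 H).filter (fun m => m ≠ c), gy y (CKT k 2) (dd (c, m)) ≤ K * H :=
    fun y c hc => hav H x y hH3 (by linarith) hHx c hc
  have hg0 : ∀ (y : ℕ) (q : ℕ × ℕ), 0 ≤ gy y (CKT k 2) (dd q) := fun y q => gy_nonneg hC0 _
  have hAx : (Icc 1 H).erase a ⊆ Icc 1 x := fun m hm => by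
    have := mem_Icc.1 (mem_of_mem_erase hm)
    exact mem_Icc.2 ⟨this.1, by omega⟩
  have hAc : ((Icc 1 H).erase a).card ≤ H := by
    refine (card_le_card (erase_subset _ _)).trans ?_
    rw [Nat.card_Icc, Nat.add_sub_cancel]
  refine hN₀ x (by exact_mod_cast hx1) H hM1 ((Icc 1 H).erase a) hAx (notMem_erase _ _)
    (fun s hs => by have := (mem_Icc.1 (mem_of_mem_erase hs)).2; omega) hAc ?_ ?_ ?_ Bad ?_
  · intro y
    have e : ∑ q ∈ ((Icc 1 H).erase a).offDiag, gy y (CKT k 2) (dd q) ≤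
        ∑ w ∈ Icc 1 H, ∑ m ∈ (Icc 1 H).filter (fun m => m ≠ w), gy y (CKT k 2) (dd (w, m)) := by
      have e1 : ∑ w ∈ Icc 1 H, ∑ m ∈ (Icc 1 H).filter (fun m => m ≠ w), gy y (CKT k 2) (dd (w, m)) =
          ∑ q ∈ (Icc 1 H).offDiag, gy y (CKT k 2) (dd q) := by
        have e3 : (Icc 1 H).offDiag = (Icc 1 H ×ˢ Icc 1 H).filter (fun q => q.2 ≠ q.1) := by
          ext q
          rw [mem_offDiag, mem_filter, mem_product, and_assoc, ne_comm]
        rw [e3, sum_filter, sum_product]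
        refine sum_congr rfl fun w _ => ?_
        rw [sum_filter]
      rw [e1]
      refine sum_le_sum_of_subset_of_nonneg ?_ fun q _ _ => hg0 y q
      intro q hq
      rw [mem_offDiag] at hq ⊢
      exact ⟨mem_of_mem_erase hq.1, mem_of_mem_erase hq.2.1, hq.2.2⟩
    refine e.trans ((sum_le_sum fun w hw => hav' y w (by have := (mem_Icc.1 hw).2; omega)).trans (le_of_eq ?_))
    rw [sum_const, nsmul_eq_mul, Nat.card_Icc, Nat.add_sub_cancel]
    ring
  · intro y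
    refine le_trans (sum_le_sum_of_subset_of_nonneg ?_ fun q _ _ => hg0 y (0, q)) (hav' y 0 (by omega))
    intro m hm
    have := mem_Icc.1 (mem_of_mem_erase hm)
    exact mem_filter.2 ⟨mem_of_mem_erase hm, by omega⟩
  · intro y
    refine le_trans (sum_le_sum_of_subset_of_nonneg ?_ fun q _ _ => hg0 y (a, q)) (hav' y a hxa)
    intro m hm
    exact mem_filter.2 ⟨mem_of_mem_erase hm, ne_of_mem_erase hm⟩
  · intro D hD
    obtain ⟨b1, b2⟩ := hBad D hD
    have e0 : ({0, a} ∪ D : Finset ℕ) = Pool.Agent.Y822.pat (insert a D) := by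
      unfold Pool.Agent.Y822.pat
      ext m
      simp only [mem_union, mem_insert, mem_singleton, or_assoc]
    rw [Classical.not_imp, not_le, e0] at b2
    exact ⟨b1, adm_of_ne b2.1, b2.2⟩

end Pool.Agent.J4.H57.QP
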